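import Pool.Agent.T2H18.GS.Gen

/-!
# Automorphisms of order prime to `λ!`
-/

set_option autoImplicit false

namespace Pool.Agent.T2H18.GS

open Finset
open scoped Classical

/-- an element of a small invariant set is fixed by an injective map whose order is prime to `lam!` -/
lemma fixed_of_small {α : Type} {f : α → α} {T : Finset α} {lam N : ℕ}
    (hT : T.card ≤ lam) (hfT : ∀ a ∈ T, f a ∈ T) (hN : 0 < N) (hf : ∀ a, f^[N] a = a)
    (hco : Nat.Coprime N lam.factorial) {a : α} (ha : a ∈ T) : f a = a := by
  have hper : Function.IsPeriodicPt f N a := hf a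
  have hpos : 0 < Function.minimalPeriod f a := hper.minimalPeriod_pos hN
  have hdvd : Function.minimalPeriod f a ∣ N := hper.minimalPeriod_dvd
  have hmem : ∀ i, f^[i] a ∈ T := by
    intro i
    induction i with
    | zero => exact ha
    | succ i ih =>
      rw [Function.iterate_succ_apply']
      exact hfT _ ih
  have hle : Function.minimalPeriod f a ≤ lam := by
    refine le_trans ?_ hT
    rw [← Finset.card_range (Function.minimalPeriod f a)]
    refine Finset.card_le_card_of_injOn (fun i => f^[i] a) (fun i _ => hmem i) ?_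
    intro i hi j hj hij
    have h1 : i < Function.minimalPeriod f a := by simpa using hi
    have h2 : j < Function.minimalPeriod f a := by simpa using hj
    exact Function.iterate_injOn_Iio_minimalPeriod h1 h2 hij
  have h1 : Function.minimalPeriod f a = 1 :=
    Nat.eq_one_of_dvd_coprimes hco hdvd (Nat.dvd_factorial hpos hle)
  have h2 := Function.isPeriodicPt_minimalPeriod f a
  rw [h1] at h2
  exact h2

variable {v lam : ℕ} {B : Fin v → Finset (Fin v)}

/-- incidence -/
def inc (B : Fin v → Finset (Fin v)) (x i : Fin v) : Prop := x ∈ B i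

/-- the fixed points and blocks of an automorphism -/
lemma op_fix (hD : Cl (inc B) lam univ univ) {u : Equiv.Perm (Fin v)}
    (hu : ∀ i, ∃ j, (B i).image u = B j) (hco : Nat.Coprime (orderOf u) lam.factorial) :
    Op (inc B) (univ.filter fun x => u x = x)
      (univ.filter fun i => (B i).image u = B i) where
  pts := by
    intro x hx x' hx' hne i hi hi'
    simp only [mem_filter, mem_univ, true_and] at hx hx' ⊢
    have h1 := hD.pts x (mem_univ _) x' (mem_univ _) hne
    refine fixed_of_small (f := fun s : Finset (Fin v) => s.image u)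
      (T := (univ.filter fun i => inc B x i ∧ inc B x' i).image B) (lam := lam) (N := orderOf u)
      (Finset.card_image_le.trans h1.le) ?_ (orderOf_pos u) ?_ hco ?_
    · intro s hs
      rw [mem_image] at hs
      obtain ⟨j, hj, rfl⟩ := hs
      rw [mem_filter] at hj
      obtain ⟨l, hl⟩ := hu j
      rw [mem_image]
      refine ⟨l, ?_, hl.symm⟩
      rw [mem_filter]
      unfold inc
      rw [← hl]
      exact ⟨mem_univ _, mem_image.2 ⟨x, hj.2.1, hx⟩, mem_image.2 ⟨x', hj.2.2, hx'⟩⟩
    · intro s
      have h2 : ∀ n : ℕ, (fun s : Finset (Fin v) => s.image u)^[n] s = s.image (u ^ n) := by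
        intro n
        induction n with
        | zero => ext; simp
        | succ n ih =>
          rw [Function.iterate_succ_apply', ih, Finset.image_image]
          congr 1
          rw [pow_succ', Equiv.Perm.coe_mul]
      rw [h2, pow_orderOf_eq_one]
      ext
      simp
    · rw [mem_image]
      exact ⟨i, mem_filter.2 ⟨mem_univ _, hi, hi'⟩, rfl⟩
  blk := by
    intro i hi j hj hne x hxi hxj
    simp only [mem_filter, mem_univ, true_and] at hi hj ⊢
    have h1 := hD.blk i (mem_univ _) j (mem_univ _) hne
    refine fixed_of_small (f := u) (T := univ.filter fun x => inc B x i ∧ inc B x j) (lam := lam)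
      (N := orderOf u) h1.le ?_ (orderOf_pos u) ?_ hco
      (mem_filter.2 ⟨mem_univ _, hxi, hxj⟩)
    · intro a ha
      rw [mem_filter] at ha ⊢
      unfold inc at ha ⊢
      refine ⟨mem_univ _, ?_, ?_⟩
      · rw [← hi]
        exact mem_image_of_mem _ ha.2.1
      · rw [← hj]
        exact mem_image_of_mem _ ha.2.2
    · intro a
      have h2 : ∀ n : ℕ, (u : Fin v → Fin v)^[n] a = (u ^ n) a := fun n => by
        rw [← Equiv.Perm.iterate_eq_pow]
      rw [h2, pow_orderOf_eq_one]
      rfl

/-- **Groups of automorphisms of order prime to `lam!` are small.** -/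
theorem card_aut (hD : Cl (inc B) lam univ univ) {n : ℕ} {S : Finset (Fin v)}
    (hS : S.card ≤ n) (hgen : ∀ P Q : Finset (Fin v), Op (inc B) P Q → S ⊆ P →
      P = univ) (G : Subgroup (Equiv.Perm (Fin v))) (hG : ∀ g ∈ G, ∀ i, ∃ j, (B i).image g = B j)
    (hco : Nat.Coprime (Nat.card G) lam.factorial) : Nat.card G ≤ v ^ n := by
  have hv : 0 < v := by
    have h1 := hD.two
    rw [Finset.card_univ, Fintype.card_fin] at h1
    omega
  have hinj : Function.Injective (fun (g : G) (s : S) => (g : Equiv.Perm (Fin v)) (s : Fin v)) := by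
    intro g h hgh
    have h1 : ∀ s ∈ S, (h⁻¹ * g : G).1 s = s := by
      intro s hs
      have h2 := congrFun hgh ⟨s, hs⟩
      simp only at h2
      rw [Subgroup.coe_mul, Equiv.Perm.coe_mul, Function.comp_apply, h2, InvMemClass.coe_inv]
      exact Equiv.symm_apply_apply _ _
    have h3 : Nat.Coprime (orderOf (h⁻¹ * g : G).1) lam.factorial := by
      refine Nat.Coprime.coprime_dvd_left ?_ hco
      rw [Subgroup.orderOf_coe]
      exact orderOf_dvd_natCard _
    have h4 := hgen _ _ (op_fix hD (hG _ (h⁻¹ * g : G).2) h3) (by
      intro s hs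
      rw [mem_filter]
      exact ⟨mem_univ _, h1 s hs⟩)
    have h5 : (h⁻¹ * g : G) = 1 := by
      apply Subtype.ext
      rw [OneMemClass.coe_one]
      ext x
      have : x ∈ univ.filter fun x => (h⁻¹ * g : G).1 x = x := by
        rw [h4]
        exact mem_univ _
      rw [mem_filter] at this
      rw [this.2]
      rfl
    exact (inv_mul_eq_one.1 h5).symm
  have h6 := Nat.card_le_card_of_injective _ hinj
  refine h6.trans ?_
  rw [Nat.card_eq_fintype_card, Fintype.card_fun, Fintype.card_coe, Fintype.card_fin]
  exact Nat.pow_le_pow_right hv hS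

end Pool.Agent.T2H18.GS
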