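import Pool.Agent.T2H18.GS.Gen

/-!
# Generators of closed substructures; the number of closed substructures
-/

set_option autoImplicit false

namespace Pool.Agent.T2H18.GS

open Finset
open scoped Classical

variable {X Y : Type} {I : X → Y → Prop} {lam : ℕ}

lemma card_sub {Z : Type} (Q : Finset Z) (p : Z → Prop) :
    ((univ : Finset {y // y ∈ Q}).filter fun y => p y.1).card = (Q.filter p).card := by
  rw [← Finset.card_map (Function.Embedding.subtype _)]
  congr 1
  ext y
  simp only [mem_map, mem_filter, mem_univ, true_and, Function.Embedding.subtype_apply,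
    Subtype.exists, exists_and_left, exists_prop]
  constructor
  · rintro ⟨a, h1, h2, rfl⟩
    exact ⟨h2, h1⟩
  · rintro ⟨h1, h2⟩
    exact ⟨y, h2, h1, rfl⟩

lemma cl_sub {P : Finset X} {Q : Finset Y} (h : Cl I lam P Q) :
    Cl (fun (x : {x // x ∈ P}) (y : {y // y ∈ Q}) => I x.1 y.1) lam univ univ where
  two := by
    rw [Finset.card_univ, Fintype.card_coe]
    exact h.two
  pts := by
    intro x _ x' _ hne
    rw [← h.pts _ x.2 _ x'.2 fun hcon => hne (Subtype.ext hcon)]
    convert card_sub Q (fun y => I x.1 y ∧ I x'.1 y)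
  blk := by
    intro y _ y' _ hne
    rw [← h.blk _ y.2 _ y'.2 fun hcon => hne (Subtype.ext hcon)]
    convert card_sub P (fun x => I x y.1 ∧ I x y'.1)

/-- **Few generators of a closed substructure.** -/
theorem gen_sub {P : Finset X} {Q : Finset Y} (h : Cl I lam P Q) (hlam : 2 ≤ lam) (n : ℕ)
    (hk : ∃ y ∈ Q, sz I P y < kap lam (2 * n + 1)) :
    ∃ S : Finset X, S.card ≤ n + 2 ∧ S ⊆ P ∧
      ∀ (P' : Finset X) (Q' : Finset Y), Op I P' Q' → S ⊆ P' → P ⊆ P' := by
  obtain ⟨y₀, hy₀, hlt⟩ := hk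
  obtain ⟨S, hS, hgen⟩ := gen (cl_sub h) hlam n ⟨⟨y₀, hy₀⟩, by
    unfold sz at hlt ⊢
    rw [card_sub P fun x => I x y₀]
    exact hlt⟩
  refine ⟨S.map (Function.Embedding.subtype _), by rwa [Finset.card_map], ?_, ?_⟩
  · intro x hx
    rw [mem_map] at hx
    obtain ⟨z, _, rfl⟩ := hx
    exact z.2
  · intro P' Q' h' hS'
    have h1 := hgen (univ.filter fun x => x.1 ∈ P') (univ.filter fun y => y.1 ∈ Q') ⟨?_, ?_⟩ ?_
    · intro x hx
      have h2 : (⟨x, hx⟩ : {x // x ∈ P}) ∈
          ((univ : Finset {x // x ∈ P}).filter fun x => x.1 ∈ P') := by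
        rw [h1]
        exact mem_univ _
      exact (mem_filter.1 h2).2
    · intro x hx x' hx' hne y h2 h3
      rw [mem_filter] at hx hx' ⊢
      exact ⟨mem_univ _, h'.pts _ hx.2 _ hx'.2 (fun hcon => hne (Subtype.ext hcon)) _ h2 h3⟩
    · intro y hy y' hy' hne x h2 h3
      rw [mem_filter] at hy hy' ⊢
      exact ⟨mem_univ _, h'.blk _ hy.2 _ hy'.2 (fun hcon => hne (Subtype.ext hcon)) _ h2 h3⟩
    · intro x hx
      rw [mem_filter]
      exact ⟨mem_univ _, hS' (mem_map.2 ⟨x, hx, rfl⟩)⟩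

/-- sizes of closed substructures -/
lemma sz_le [Fintype X] [Fintype Y] {P : Finset X} (y : Y) : sz I P y ≤ sz I univ y :=
  Finset.card_le_card (Finset.filter_subset_filter _ (Finset.subset_univ _))

/-- **The number of closed substructures.** -/
theorem card_closed [Fintype X] [Fintype Y] (hD : Cl I lam univ univ) (hlam : 2 ≤ lam) (n : ℕ)
    (hk : ∀ y : Y, sz I univ y < kap lam (2 * n + 1)) :
    {P : Finset X | 2 ≤ P.card ∧ ∃ Q : Finset Y, Op I P Q}.ncard ≤ Fintype.card X ^ (n + 2) := by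
  have key : ∀ P : Finset X, 2 ≤ P.card → (∃ Q : Finset Y, Op I P Q) →
      ∃ f : Fin (n + 2) → X, P = clP I (univ.image f) := by
    intro P h2 hP
    obtain ⟨Q, hPQ⟩ := hP
    have c := hPQ.cl hD h2
    obtain ⟨y₀, hy₀⟩ := c.nonempty' hlam
    obtain ⟨S, hS, hSP, hgen⟩ := gen_sub c hlam n ⟨y₀, hy₀, (sz_le y₀).trans_lt (hk y₀)⟩
    have hSne : S.Nonempty := by
      by_contra hcon
      rw [Finset.not_nonempty_iff_eq_empty] at hcon
      have h1 := hgen ∅ ∅ ⟨by simp, by simp⟩ (by rw [hcon])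
      have h3 := Finset.card_le_card h1
      rw [Finset.card_empty] at h3
      omega
    obtain ⟨s₀, hs₀⟩ := hSne
    -- list the points of `S`
    have hcard : Fintype.card S ≤ Fintype.card (Fin (n + 2)) := by
      rw [Fintype.card_coe, Fintype.card_fin]
      exact hS
    obtain ⟨e⟩ := Function.Embedding.nonempty_of_card_le hcard
    have hinv : ∃ f : Fin (n + 2) → X, univ.image f = S := by
      haveI : Nonempty S := ⟨⟨s₀, hs₀⟩⟩
      refine ⟨fun j => (Function.invFun e j).1, ?_⟩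
      ext x
      rw [mem_image]
      constructor
      · rintro ⟨j, _, rfl⟩
        exact (Function.invFun e j).2
      · intro hx
        refine ⟨e ⟨x, hx⟩, mem_univ _, ?_⟩
        rw [Function.leftInverse_invFun e.injective]
    obtain ⟨f, hf⟩ := hinv
    refine ⟨f, ?_⟩
    rw [hf]
    exact Finset.Subset.antisymm (hgen _ _ (op_cl S) (subset_clP S)) (clP_subset hPQ hSP)
  have h1 : {P : Finset X | 2 ≤ P.card ∧ ∃ Q : Finset Y, Op I P Q} ⊆
      Set.range (fun f : Fin (n + 2) → X => clP I (univ.image f)) := by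
    rintro P ⟨h2, hP⟩
    obtain ⟨f, hf⟩ := key P h2 hP
    exact ⟨f, hf.symm⟩
  refine (Set.ncard_le_ncard h1 (Set.finite_range _)).trans ?_
  rw [← Set.image_univ]
  refine (Set.ncard_image_le (Set.finite_univ)).trans ?_
  rw [Set.ncard_univ, Nat.card_eq_fintype_card, Fintype.card_fun, Fintype.card_fin]

end Pool.Agent.T2H18.GS
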