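import Mathlib

/-!
# Structures in which any two points lie on `λ` blocks and any two blocks meet in `λ` points
-/

set_option autoImplicit false

namespace Pool.Agent.T2H18.GS

open Finset
open scoped Classical

variable {X Y : Type} {I : X → Y → Prop}

/-- any two points of `P` lie on exactly `lam` blocks of `Q`, any two blocks of `Q` have exactly
`lam` common points in `P` -/
structure Cl (I : X → Y → Prop) (lam : ℕ) (P : Finset X) (Q : Finset Y) : Prop where
  two : 2 ≤ P.card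
  pts : ∀ x ∈ P, ∀ x' ∈ P, x ≠ x' → (Q.filter fun y => I x y ∧ I x' y).card = lam
  blk : ∀ y ∈ Q, ∀ y' ∈ Q, y ≠ y' → (P.filter fun x => I x y ∧ I x y').card = lam

/-- indicator -/
noncomputable def ind (I : X → Y → Prop) (x : X) (y : Y) : ℤ := if I x y then 1 else 0

lemma ind_mul (x x' : X) (y : Y) : ind I x y * ind I x' y = if I x y ∧ I x' y then 1 else 0 := by
  unfold ind
  by_cases h1 : I x y <;> by_cases h2 : I x' y <;> simp [h1, h2]

lemma ind_mul' (x : X) (y y' : Y) : ind I x y * ind I x y' = if I x y ∧ I x y' then 1 else 0 := by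
  unfold ind
  by_cases h1 : I x y <;> by_cases h2 : I x y' <;> simp [h1, h2]

lemma ind_sq (x : X) (y : Y) : ind I x y * ind I x y = ind I x y := by
  unfold ind
  split_ifs <;> simp

/-- the number of blocks of `Q` through `x` -/
noncomputable def dg (I : X → Y → Prop) (Q : Finset Y) (x : X) : ℕ := (Q.filter fun y => I x y).card

/-- the number of points of `P` on `y` -/
noncomputable def sz (I : X → Y → Prop) (P : Finset X) (y : Y) : ℕ := (P.filter fun x => I x y).card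

lemma dg_sum (Q : Finset Y) (x : X) : (dg I Q x : ℤ) = ∑ y ∈ Q, ind I x y := by
  unfold dg ind
  rw [Finset.sum_boole]

lemma sz_sum (P : Finset X) (y : Y) : (sz I P y : ℤ) = ∑ x ∈ P, ind I x y := by
  unfold sz ind
  rw [Finset.sum_boole]

namespace Cl

variable {lam : ℕ} {P : Finset X} {Q : Finset Y}

lemma sum_pts (h : Cl I lam P Q) {x x' : X} (hx : x ∈ P) (hx' : x' ∈ P) (hne : x ≠ x') :
    ∑ y ∈ Q, ind I x y * ind I x' y = lam := by
  simp only [ind_mul]
  rw [Finset.sum_boole, h.pts x hx x' hx' hne]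

lemma sum_blk (h : Cl I lam P Q) {y y' : Y} (hy : y ∈ Q) (hy' : y' ∈ Q) (hne : y ≠ y') :
    ∑ x ∈ P, ind I x y * ind I x y' = lam := by
  simp only [ind_mul']
  rw [Finset.sum_boole, h.blk y hy y' hy' hne]

/-- a point of `P` lies on as many blocks as a block of `Q` has points -/
lemma reg (h : Cl I lam P Q) (hlam : 2 ≤ lam) {x : X} {y : Y} (hx : x ∈ P) (hy : y ∈ Q) :
    dg I Q x = sz I P y := by
  -- double counting of the pairs `(x', y')` with `x' ∈ y`, `x ∈ y'`, `x' ∈ y'`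
  have e1 : ∑ x' ∈ P, ∑ y' ∈ Q, ind I x' y * ind I x y' * ind I x' y' =
      ∑ y' ∈ Q, ∑ x' ∈ P, ind I x' y * ind I x y' * ind I x' y' := Finset.sum_comm
  have e2 : ∑ x' ∈ P, ∑ y' ∈ Q, ind I x' y * ind I x y' * ind I x' y' =
      lam * ((sz I P y : ℤ) - ind I x y) + ind I x y * dg I Q x := by
    rw [← Finset.sum_erase_add P _ hx, sz_sum, ← Finset.sum_erase_add P _ hx]
    congr 1
    · rw [add_sub_cancel_right, Finset.mul_sum]
      refine Finset.sum_congr rfl fun x' hx' => ?_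
      rw [← h.sum_pts hx (Finset.mem_of_mem_erase hx') (Finset.ne_of_mem_erase hx').symm,
        Finset.sum_mul]
      exact Finset.sum_congr rfl fun y' _ => by ring
    · rw [dg_sum, Finset.mul_sum]
      refine Finset.sum_congr rfl fun y' _ => ?_
      rw [mul_assoc, ind_sq]
  have e3 : ∑ y' ∈ Q, ∑ x' ∈ P, ind I x' y * ind I x y' * ind I x' y' =
      lam * ((dg I Q x : ℤ) - ind I x y) + ind I x y * sz I P y := by
    rw [← Finset.sum_erase_add Q _ hy, dg_sum, ← Finset.sum_erase_add Q _ hy]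
    congr 1
    · rw [add_sub_cancel_right, Finset.mul_sum]
      refine Finset.sum_congr rfl fun y' hy' => ?_
      rw [← h.sum_blk hy (Finset.mem_of_mem_erase hy') (Finset.ne_of_mem_erase hy').symm,
        Finset.sum_mul]
      exact Finset.sum_congr rfl fun x' _ => by ring
    · rw [sz_sum, Finset.mul_sum]
      refine Finset.sum_congr rfl fun x' _ => ?_
      have := ind_sq (I := I) x' y
      linear_combination ind I x y * this
  rw [e2, e3] at e1
  have e4 : ((lam : ℤ) - ind I x y) * (dg I Q x - sz I P y) = 0 := by linear_combination -e1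
  have e5 : (lam : ℤ) - ind I x y ≠ 0 := by
    have : (2 : ℤ) ≤ lam := by exact_mod_cast hlam
    unfold ind
    split_ifs <;> omega
  have e6 := (mul_eq_zero.1 e4).resolve_left e5
  have e7 : (dg I Q x : ℤ) = sz I P y := by linarith
  exact_mod_cast e7

/-- `Q` is not empty and every point is on at least `lam` blocks -/
lemma le_dg (h : Cl I lam P Q) {x : X} (hx : x ∈ P) : lam ≤ dg I Q x := by
  obtain ⟨x', hx', hne⟩ : ∃ x' ∈ P, x' ≠ x := by
    have := h.two
    obtain ⟨a, ha, b, hb, hab⟩ := Finset.one_lt_card.1 this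
    rcases eq_or_ne a x with rfl | hax
    · exact ⟨b, hb, hab.symm⟩
    · exact ⟨a, ha, hax⟩
  rw [← h.pts x hx x' hx' hne.symm]
  exact Finset.card_le_card fun y hy => by
    rw [mem_filter] at hy ⊢
    exact ⟨hy.1, hy.2.1⟩

lemma nonempty (h : Cl I lam P Q) : P.Nonempty := by
  rw [← Finset.card_pos]
  have := h.two
  omega

lemma nonempty' (h : Cl I lam P Q) (hlam : 2 ≤ lam) : Q.Nonempty := by
  obtain ⟨x, hx⟩ := h.nonempty
  have h1 := h.le_dg hx
  have h2 : 0 < (Q.filter fun y => I x y).card := by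
    unfold dg at h1
    omega
  obtain ⟨y, hy⟩ := Finset.card_pos.1 h2
  exact ⟨y, (mem_filter.1 hy).1⟩

/-- the number of blocks on a point = the number of points on a block -/
lemma exists_k (h : Cl I lam P Q) (hlam : 2 ≤ lam) : ∃ k : ℕ, lam ≤ k ∧
    (∀ x ∈ P, dg I Q x = k) ∧ (∀ y ∈ Q, sz I P y = k) ∧ Q.card = P.card ∧
      (k : ℤ) * (k - 1) = lam * ((P.card : ℤ) - 1) := by
  obtain ⟨x₀, hx₀⟩ := h.nonempty
  obtain ⟨y₀, hy₀⟩ := h.nonempty' hlam
  have h1 : ∀ y ∈ Q, sz I P y = sz I P y₀ := fun y hy => by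
    rw [← h.reg hlam hx₀ hy, h.reg hlam hx₀ hy₀]
  have h2 : ∀ x ∈ P, dg I Q x = sz I P y₀ := fun x hx => h.reg hlam hx hy₀
  have h3 : lam ≤ sz I P y₀ := by
    rw [← h2 x₀ hx₀]
    exact h.le_dg hx₀
  refine ⟨sz I P y₀, h3, h2, h1, ?_, ?_⟩
  · have e1 : ∑ x ∈ P, (dg I Q x : ℤ) = ∑ y ∈ Q, (sz I P y : ℤ) := by
      simp only [dg_sum, sz_sum]
      exact Finset.sum_comm
    have e1a : ∑ x ∈ P, (dg I Q x : ℤ) = P.card * (sz I P y₀ : ℤ) := by
      rw [Finset.sum_congr rfl (g := fun _ => (sz I P y₀ : ℤ)) fun x hx => by rw [h2 x hx],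
        Finset.sum_const, nsmul_eq_mul]
    have e1b : ∑ y ∈ Q, (sz I P y : ℤ) = Q.card * (sz I P y₀ : ℤ) := by
      rw [Finset.sum_congr rfl (g := fun _ => (sz I P y₀ : ℤ)) fun y hy => by rw [h1 y hy],
        Finset.sum_const, nsmul_eq_mul]
    rw [e1a, e1b] at e1
    have e2 : (sz I P y₀ : ℤ) ≠ 0 := by
      have : 0 < sz I P y₀ := by omega
      exact_mod_cast this.ne'
    have e3 := mul_right_cancel₀ e2 e1
    exact_mod_cast e3.symm
  · have e1 : ∑ x' ∈ P, ∑ y ∈ Q, ind I x₀ y * ind I x' y = ∑ y ∈ Q, ∑ x' ∈ P,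
        ind I x₀ y * ind I x' y := Finset.sum_comm
    have e2 : ∑ y ∈ Q, ∑ x' ∈ P, ind I x₀ y * ind I x' y = (sz I P y₀ : ℤ) * sz I P y₀ := by
      have : (sz I P y₀ : ℤ) = ∑ y ∈ Q, ind I x₀ y := by
        rw [← dg_sum, h2 x₀ hx₀]
      rw [this, Finset.sum_mul]
      refine Finset.sum_congr rfl fun y hy => ?_
      rw [← Finset.mul_sum, ← sz_sum, h1 y hy, this]
    rw [e2, ← Finset.sum_erase_add P _ hx₀, Finset.sum_congr rfl fun x' hx' =>
      h.sum_pts hx₀ (Finset.mem_of_mem_erase hx') (Finset.ne_of_mem_erase hx').symm,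
      Finset.sum_const, Finset.card_erase_of_mem hx₀, Finset.sum_congr rfl fun y _ => ind_sq x₀ y,
      ← dg_sum, h2 x₀ hx₀, nsmul_eq_mul, Nat.cast_sub (by have := h.two; omega)] at e1
    push_cast at e1
    linear_combination -e1

end Cl

/-- **Growth.** -/
theorem growth {lam k₀ k : ℕ} (hlam : 2 ≤ lam) {P P₀ : Finset X} {Q Q₀ : Finset Y}
    (h : Cl I lam P Q) (h₀ : Cl I lam P₀ Q₀) (hP : P₀ ⊂ P) (hQ : Q₀ ⊆ Q)
    (hk : ∀ y ∈ Q, sz I P y = k) (hk₀ : ∀ y ∈ Q₀, sz I P₀ y = k₀) :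
    (k₀ - 1) ^ 2 + lam ≤ k := by
  obtain ⟨K, hK1, hK2, hK3, hK4, hK5⟩ := h.exists_k hlam
  obtain ⟨K₀, hK₀1, hK₀2, hK₀3, hK₀4, hK₀5⟩ := h₀.exists_k hlam
  obtain ⟨y₀, hy₀⟩ := h₀.nonempty' hlam
  have eK : K = k := by rw [← hK3 y₀ (hQ hy₀), hk y₀ (hQ hy₀)]
  have eK₀ : K₀ = k₀ := by rw [← hK₀3 y₀ hy₀, hk₀ y₀ hy₀]
  subst eK eK₀
  have hcard : P₀.card < P.card := Finset.card_lt_card hP
  -- `k₀ < k`
  have hlt : K₀ < K := by
    by_contra hcon
    push Not at hcon
    have e1 : (K : ℤ) * (K - 1) ≤ K₀ * (K₀ - 1) := by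
      have h1 : (K : ℤ) ≤ K₀ := by exact_mod_cast hcon
      have h2 : (2 : ℤ) ≤ K := by exact_mod_cast hlam.trans hK1
      nlinarith
    rw [hK5, hK₀5] at e1
    have e2 : ((P₀.card : ℕ) : ℤ) < P.card := by exact_mod_cast hcard
    have e3 : (2 : ℤ) ≤ lam := by exact_mod_cast hlam
    nlinarith
  obtain ⟨x, hx, hx₀⟩ : ∃ x ∈ P.filter (fun x => I x y₀), x ∉ P₀ := by
    by_contra hcon
    push Not at hcon
    have h1 : P.filter (fun x => I x y₀) ⊆ P₀.filter fun x => I x y₀ := fun x hx =>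
      mem_filter.2 ⟨hcon x hx, (mem_filter.1 hx).2⟩
    have h2 := Finset.card_le_card h1
    have h3 := hK3 y₀ (hQ hy₀)
    have h4 := hK₀3 y₀ hy₀
    unfold sz at h3 h4
    rw [h3, h4] at h2
    omega
  obtain ⟨hxA, hxy₀⟩ := mem_filter.1 hx
  -- the blocks through `x` and a point of `P₀`
  set S : X → Finset Y := fun z => (Q.filter fun y => I x y ∧ I z y).erase y₀ with hS
  -- a block with two points in `P₀` is in `Q₀`
  have hb : ∀ z ∈ P₀, ∀ z' ∈ P₀, z ≠ z' → ∀ y ∈ Q, I z y → I z' y → y ∈ Q₀ := by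
    intro z hz z' hz' hne y hy h1 h2
    have e1 : Q₀.filter (fun y => I z y ∧ I z' y) ⊆ Q.filter fun y => I z y ∧ I z' y :=
      Finset.filter_subset_filter _ hQ
    have e2 := Finset.eq_of_subset_of_card_le e1 (by
      rw [h.pts z (hP.subset hz) z' (hP.subset hz') hne, h₀.pts z hz z' hz' hne])
    have e3 : y ∈ Q₀.filter fun y => I z y ∧ I z' y := by
      rw [e2]
      exact mem_filter.2 ⟨hy, h1, h2⟩
    exact (mem_filter.1 e3).1
  -- a common point of two blocks in `Q₀` is in `P₀`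
  have hp : ∀ y ∈ Q₀, y ≠ y₀ → ¬ I x y := by
    intro y hy hne h1
    have e1 : P₀.filter (fun x => I x y ∧ I x y₀) ⊆ P.filter fun x => I x y ∧ I x y₀ :=
      Finset.filter_subset_filter _ hP.subset
    have e2 := Finset.eq_of_subset_of_card_le e1 (by
      rw [h.blk y (hQ hy) y₀ (hQ hy₀) hne, h₀.blk y hy y₀ hy₀ hne])
    have e3 : x ∈ P₀.filter fun x => I x y ∧ I x y₀ := by
      rw [e2]
      exact mem_filter.2 ⟨hxA, h1, hxy₀⟩
    exact hx₀ (mem_filter.1 e3).1
  have hdis : (P₀ : Set X).PairwiseDisjoint S := by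
    intro z hz z' hz' hne
    rw [Function.onFun, Finset.disjoint_left]
    intro y h1 h2
    rw [hS] at h1 h2
    simp only [mem_erase, mem_filter] at h1 h2
    exact hp y (hb z hz z' hz' hne y h1.2.1 h1.2.2.2 h2.2.2.2) h1.1 h1.2.2.1
  have hcard : ∀ z ∈ P₀, (S z).card + (if I z y₀ then 1 else 0) = lam := by
    intro z hz
    have hxz : x ≠ z := by
      rintro rfl
      exact hx₀ hz
    have e1 := h.pts x hxA z (hP.subset hz) hxz
    rw [hS]
    split_ifs with hzy
    · rw [Finset.card_erase_add_one, e1]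
      exact mem_filter.2 ⟨hQ hy₀, hxy₀, hzy⟩
    · simp only [add_zero]
      rw [Finset.erase_eq_of_notMem, e1]
      intro hcon
      exact hzy (mem_filter.1 hcon).2.2
  have hsum : ∑ z ∈ P₀, (S z).card + K₀ = lam * P₀.card := by
    have e1 : ∑ z ∈ P₀, ((S z).card + (if I z y₀ then 1 else 0)) = ∑ _z ∈ P₀, lam :=
      Finset.sum_congr rfl hcard
    have e2 := hK₀3 y₀ hy₀
    unfold sz at e2
    rw [Finset.sum_add_distrib, Finset.sum_boole, e2, Finset.sum_const,
      smul_eq_mul, mul_comm] at e1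
    simpa using e1
  have hunion : (P₀.biUnion S) ⊆ (Q.filter fun y => I x y).erase y₀ := by
    intro y hy
    obtain ⟨z, _, hz⟩ := mem_biUnion.1 hy
    rw [hS] at hz
    simp only [mem_erase, mem_filter] at hz
    exact mem_erase.2 ⟨hz.1, mem_filter.2 ⟨hz.2.1, hz.2.2.1⟩⟩
  have hle := Finset.card_le_card hunion
  have e5 := hK2 x hxA
  unfold dg at e5
  rw [Finset.card_biUnion (fun z hz z' hz' hne => hdis hz hz' hne),
    Finset.card_erase_of_mem (mem_filter.2 ⟨hQ hy₀, hxy₀⟩), e5] at hle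
  -- conclusion in the integers
  obtain ⟨m, rfl⟩ : ∃ m, K₀ = m + 1 := ⟨K₀ - 1, by omega⟩
  have e6 : ((∑ z ∈ P₀, (S z).card : ℕ) : ℤ) + (m + 1) = lam * P₀.card := by exact_mod_cast hsum
  have e7 : ((∑ z ∈ P₀, (S z).card : ℕ) : ℤ) ≤ K - 1 := by omega
  push_cast at hK₀5
  have e8 : ((m : ℤ)) ^ 2 + lam ≤ K := by nlinarith
  have e9 : m + 1 - 1 = m := by omega
  rw [e9]
  exact_mod_cast e8

end Pool.Agent.T2H18.GS
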