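import Pool.Agent.T2H18.GS.Cl

/-!
# Closed substructures and generation
-/

set_option autoImplicit false

namespace Pool.Agent.T2H18.GS

open Finset
open scoped Classical

variable {X Y : Type} {I : X → Y → Prop}

/-- all blocks through two points of `P` are in `Q`, all common points of two blocks of `Q` are in
`P` -/
structure Op (I : X → Y → Prop) (P : Finset X) (Q : Finset Y) : Prop where
  pts : ∀ x ∈ P, ∀ x' ∈ P, x ≠ x' → ∀ y, I x y → I x' y → y ∈ Q
  blk : ∀ y ∈ Q, ∀ y' ∈ Q, y ≠ y' → ∀ x, I x y → I x y' → x ∈ P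

/-- the growth sequence -/
def kap (lam : ℕ) : ℕ → ℕ
  | 0 => lam
  | n + 1 => (kap lam n - 1) ^ 2 + lam

lemma kap_mono_step {lam a n : ℕ} (h : kap lam n ≤ a) : kap lam (n + 1) ≤ (a - 1) ^ 2 + lam := by
  have h1 : kap lam n - 1 ≤ a - 1 := by omega
  have h2 : (kap lam n - 1) ^ 2 ≤ (a - 1) ^ 2 := Nat.pow_le_pow_left h1 2
  show (kap lam n - 1) ^ 2 + lam ≤ _
  omega

lemma le_kap (lam n : ℕ) : lam ≤ kap lam n := by
  cases n with
  | zero => exact le_rfl
  | succ n => exact Nat.le_add_left _ _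

lemma two_pow_le_kap {lam : ℕ} (hlam : 2 ≤ lam) (n : ℕ) : 2 ^ 2 ^ n + 1 ≤ kap lam (n + 1) := by
  induction n with
  | zero =>
    show 2 ^ 2 ^ 0 + 1 ≤ (lam - 1) ^ 2 + lam
    have : 1 ≤ (lam - 1) ^ 2 := Nat.one_le_pow _ _ (by omega)
    norm_num
    omega
  | succ n ih =>
    show 2 ^ 2 ^ (n + 1) + 1 ≤ (kap lam (n + 1) - 1) ^ 2 + lam
    have h1 : 2 ^ 2 ^ n ≤ kap lam (n + 1) - 1 := by omega
    have h2 : (2 ^ 2 ^ n) ^ 2 ≤ (kap lam (n + 1) - 1) ^ 2 := Nat.pow_le_pow_left h1 2
    rw [← pow_mul, ← pow_succ] at h2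
    omega

variable [Fintype X] [Fintype Y] {lam : ℕ}

lemma Op.cl {P : Finset X} {Q : Finset Y} (hD : Cl I lam univ univ) (h : Op I P Q)
    (h2 : 2 ≤ P.card) : Cl I lam P Q where
  two := h2
  pts := by
    intro x hx x' hx' hne
    rw [← hD.pts x (mem_univ _) x' (mem_univ _) hne]
    congr 1
    ext y
    simp only [mem_filter, mem_univ, true_and, and_iff_right_iff_imp]
    exact fun hy => h.pts x hx x' hx' hne y hy.1 hy.2
  blk := by
    intro y hy y' hy' hne
    rw [← hD.blk y (mem_univ _) y' (mem_univ _) hne]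
    congr 1
    ext x
    simp only [mem_filter, mem_univ, true_and, and_iff_right_iff_imp]
    exact fun hx => h.blk y hy y' hy' hne x hx.1 hx.2

/-- the points generated by `S` -/
noncomputable def clP (I : X → Y → Prop) (S : Finset X) : Finset X :=
  univ.filter fun x => ∀ (P : Finset X) (Q : Finset Y), Op I P Q → S ⊆ P → x ∈ P

/-- the blocks generated by `S` -/
noncomputable def clQ (I : X → Y → Prop) (S : Finset X) : Finset Y :=
  univ.filter fun y => ∀ (P : Finset X) (Q : Finset Y), Op I P Q → S ⊆ P → y ∈ Q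

lemma mem_clP {S : Finset X} {x : X} : x ∈ clP I S ↔
    ∀ (P : Finset X) (Q : Finset Y), Op I P Q → S ⊆ P → x ∈ P := by
  simp [clP]

lemma mem_clQ {S : Finset X} {y : Y} : y ∈ clQ I S ↔
    ∀ (P : Finset X) (Q : Finset Y), Op I P Q → S ⊆ P → y ∈ Q := by
  simp [clQ]

lemma op_cl (S : Finset X) : Op I (clP I S) (clQ I S) where
  pts := by
    intro x hx x' hx' hne y h1 h2
    rw [mem_clQ]
    intro P Q hPQ hS
    exact hPQ.pts x (mem_clP.1 hx P Q hPQ hS) x' (mem_clP.1 hx' P Q hPQ hS) hne y h1 h2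
  blk := by
    intro y hy y' hy' hne x h1 h2
    rw [mem_clP]
    intro P Q hPQ hS
    exact hPQ.blk y (mem_clQ.1 hy P Q hPQ hS) y' (mem_clQ.1 hy' P Q hPQ hS) hne x h1 h2

lemma subset_clP (S : Finset X) : S ⊆ clP I S := by
  intro x hx
  rw [mem_clP]
  exact fun P Q _ hS => hS hx

lemma clP_subset {S P : Finset X} {Q : Finset Y} (h : Op I P Q) (hS : S ⊆ P) : clP I S ⊆ P :=
  fun _ hx => mem_clP.1 hx P Q h hS

lemma clQ_subset {S P : Finset X} {Q : Finset Y} (h : Op I P Q) (hS : S ⊆ P) : clQ I S ⊆ Q :=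
  fun _ hy => mem_clQ.1 hy P Q h hS

lemma clP_mono {S T : Finset X} (h : S ⊆ T) : clP I S ⊆ clP I T :=
  clP_subset (op_cl T) (h.trans (subset_clP T))

lemma clQ_mono {S T : Finset X} (h : S ⊆ T) : clQ I S ⊆ clQ I T :=
  clQ_subset (op_cl T) (h.trans (subset_clP T))

/-- **Two further points of a block are generated by one point.** -/
lemma pair_step (hD : Cl I lam univ univ) (hlam : 2 ≤ lam) {p q a b : X} {y₀ : Y} (hpq : p ≠ q)
    (hp : I p y₀) (hq : I q y₀) (ha : I a y₀) (hb : I b y₀) :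
    ∃ x, ∀ (P : Finset X) (Q : Finset Y), Op I P Q → p ∈ P → q ∈ P → x ∈ P → a ∈ P ∧ b ∈ P := by
  -- another block through two points of `y₀`
  have hother : ∀ u w : X, u ≠ w → ∃ y, y ≠ y₀ ∧ I u y ∧ I w y := by
    intro u w huw
    have h1 := hD.pts u (mem_univ _) w (mem_univ _) huw
    have h2 : 1 < (univ.filter fun y => I u y ∧ I w y).card := by omega
    obtain ⟨c, hc, hne⟩ := Finset.exists_mem_ne h2 y₀
    rw [mem_filter] at hc
    exact ⟨c, hne, hc.2.1, hc.2.2⟩
  by_cases hap : a = p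
  · refine ⟨b, fun P Q _ h1 _ h3 => ⟨hap ▸ h1, h3⟩⟩
  by_cases hbq : b = q
  · refine ⟨a, fun P Q _ _ h2 h3 => ⟨h3, hbq ▸ h2⟩⟩
  obtain ⟨c, hc, hpc, hac⟩ := hother p a (fun h => hap h.symm)
  obtain ⟨d, hd, hqd, hbd⟩ := hother q b (fun h => hbq h.symm)
  by_cases hcd : c = d
  · subst hcd
    refine ⟨p, fun P Q h h1 h2 _ => ?_⟩
    have e1 := h.pts p h1 q h2 hpq c hpc hqd
    have e2 := h.pts p h1 q h2 hpq y₀ hp hq
    exact ⟨h.blk c e1 y₀ e2 hc a hac ha, h.blk c e1 y₀ e2 hc b hbd hb⟩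
  · obtain ⟨x, hxc, hxd, hxp, hxq⟩ : ∃ x, I x c ∧ I x d ∧ x ≠ p ∧ x ≠ q := by
      by_contra hcon
      push Not at hcon
      have h1 := hD.blk c (mem_univ _) d (mem_univ _) hcd
      have h2 : (univ.filter fun x => I x c ∧ I x d) ⊆ {p, q} := by
        intro x hx
        rw [mem_filter] at hx
        rw [mem_insert, mem_singleton]
        by_contra h3
        push Not at h3
        exact h3.2 (hcon x hx.2.1 hx.2.2 h3.1)
      have h3 : ({p, q} : Finset X).card = 2 := Finset.card_pair hpq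
      have h4 := Finset.card_le_card h2
      have h5 : (univ.filter fun x => I x c ∧ I x d) = {p, q} :=
        Finset.eq_of_subset_of_card_le h2 (by omega)
      have h6 : lam = 2 := by omega
      have h7 : p ∈ (univ.filter fun x => I x c ∧ I x d) := by rw [h5]; simp
      have h8 : q ∈ (univ.filter fun x => I x c ∧ I x d) := by rw [h5]; simp
      rw [mem_filter] at h7 h8
      have h9 : ({y₀, c, d} : Finset Y) ⊆ univ.filter fun y => I p y ∧ I q y := by
        intro y hy
        simp only [mem_insert, mem_singleton] at hy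
        rw [mem_filter]
        rcases hy with rfl | rfl | rfl
        · exact ⟨mem_univ _, hp, hq⟩
        · exact ⟨mem_univ _, h7.2.1, h8.2.1⟩
        · exact ⟨mem_univ _, h7.2.2, h8.2.2⟩
      have h10 := Finset.card_le_card h9
      rw [hD.pts p (mem_univ _) q (mem_univ _) hpq, Finset.card_eq_three.2
        ⟨y₀, c, d, hc.symm, hd.symm, hcd, rfl⟩] at h10
      omega
    refine ⟨x, fun P Q h h1 h2 h3 => ?_⟩
    have e0 := h.pts p h1 q h2 hpq y₀ hp hq
    have e1 := h.pts x h3 p h1 hxp c hxc hpc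
    have e2 := h.pts x h3 q h2 hxq d hxd hqd
    exact ⟨h.blk c e1 y₀ e0 hc a hac ha, h.blk d e2 y₀ e0 hd b hbd hb⟩

lemma cover (hD : Cl I lam univ univ) (hlam : 2 ≤ lam) {y₀ : Y} (p : ℕ → X) (h01 : p 0 ≠ p 1)
    (hp : ∀ j, I (p j) y₀) (n : ℕ) : ∃ S : Finset X, S.card ≤ n ∧
      ∀ (P : Finset X) (Q : Finset Y), Op I P Q → p 0 ∈ P → p 1 ∈ P → S ⊆ P →
        ∀ j < 2 * n + 2, p j ∈ P := by
  induction n with
  | zero =>
    refine ⟨∅, by simp, fun P Q _ h0 h1 _ j hj => ?_⟩
    interval_cases j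
    · exact h0
    · exact h1
  | succ n ih =>
    obtain ⟨S, hS, hc⟩ := ih
    obtain ⟨x, hx⟩ := pair_step hD hlam h01 (hp 0) (hp 1) (hp (2 * n + 2)) (hp (2 * n + 3))
    refine ⟨insert x S, (Finset.card_insert_le _ _).trans (by omega), ?_⟩
    intro P Q h h0 h1 hSP j hj
    have e1 := hc P Q h h0 h1 ((Finset.subset_insert _ _).trans hSP)
    have e2 := hx P Q h h0 h1 (hSP (Finset.mem_insert_self _ _))
    rcases lt_or_ge j (2 * n + 2) with hlt | hge
    · exact e1 j hlt
    · have : j = 2 * n + 2 ∨ j = 2 * n + 3 := by omega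
      rcases this with rfl | rfl
      · exact e2.1
      · exact e2.2

/-- the set of the first `j` points -/
noncomputable def pre (p : ℕ → X) (j : ℕ) : Finset X := (range j).image p

lemma pre_subset_iff {p : ℕ → X} {j : ℕ} {P : Finset X} : pre p j ⊆ P ↔ ∀ i < j, p i ∈ P := by
  unfold pre
  rw [Finset.image_subset_iff]
  simp

lemma two_le_cl {p : ℕ → X} (h01 : p 0 ≠ p 1) {j : ℕ} (hj : 2 ≤ j) :
    2 ≤ (clP I (pre p j)).card := by
  have h1 : ({p 0, p 1} : Finset X) ⊆ clP I (pre p j) := by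
    refine Finset.Subset.trans ?_ (subset_clP _)
    intro x hx
    rw [mem_insert, mem_singleton] at hx
    unfold pre
    rw [mem_image]
    rcases hx with rfl | rfl
    · exact ⟨0, by rw [mem_range]; omega, rfl⟩
    · exact ⟨1, by rw [mem_range]; omega, rfl⟩
  calc 2 = ({p 0, p 1} : Finset X).card := (Finset.card_pair h01).symm
    _ ≤ _ := Finset.card_le_card h1

/-- **The sizes in a chain.** -/
lemma chain (hD : Cl I lam univ univ) (hlam : 2 ≤ lam) {p : ℕ → X} (h01 : p 0 ≠ p 1) (m : ℕ)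
    (hp : ∀ j, 2 ≤ j → j < m → p j ∉ clP I (pre p j)) (n : ℕ) (hn : n + 2 ≤ m) :
    ∃ k, kap lam n ≤ k ∧ ∀ y ∈ clQ I (pre p (n + 2)), sz I (clP I (pre p (n + 2))) y = k := by
  induction n with
  | zero =>
    obtain ⟨k, h1, -, h3, -, -⟩ := ((op_cl (I := I) (pre p 2)).cl hD
      (two_le_cl h01 le_rfl)).exists_k hlam
    exact ⟨k, h1, h3⟩
  | succ n ih =>
    obtain ⟨k₀, hk₀, h₀⟩ := ih (by omega)
    have c₀ := (op_cl (I := I) (pre p (n + 2))).cl hD (two_le_cl h01 (by omega))
    have c := (op_cl (I := I) (pre p (n + 1 + 2))).cl hD (two_le_cl h01 (by omega))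
    obtain ⟨k, -, -, h3, -, -⟩ := c.exists_k hlam
    refine ⟨k, ?_, h3⟩
    have hsub : pre p (n + 2) ⊆ pre p (n + 1 + 2) := by
      unfold pre
      exact Finset.image_subset_image (Finset.range_mono (by omega))
    have hlt : clP I (pre p (n + 2)) ⊂ clP I (pre p (n + 1 + 2)) := by
      rw [Finset.ssubset_iff_of_subset (clP_mono hsub)]
      refine ⟨p (n + 2), subset_clP _ ?_, hp (n + 2) (by omega) (by omega)⟩
      unfold pre
      rw [mem_image]
      exact ⟨n + 2, by rw [mem_range]; omega, rfl⟩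
    exact (kap_mono_step hk₀).trans (growth hlam c c₀ hlt (clQ_mono hsub) h3 h₀)

/-- **Structures in which every `n + 2` points generate a small substructure.** -/
theorem small (hD : Cl I lam univ univ) (hlam : 2 ≤ lam) (n K : ℕ) (hK : K < kap lam (2 * n))
    (y₀ : Y) (H : ∀ S : Finset X, 2 ≤ (S.filter fun x => I x y₀).card → S.card ≤ n + 2 →
      ∃ (P : Finset X) (Q : Finset Y), Op I P Q ∧ S ⊆ P ∧ ∀ y ∈ Q, sz I P y ≤ K) :
    sz I univ y₀ ≤ K := by
  by_contra hcon
  push Not at hcon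
  obtain ⟨k, hk1, -, hk3, -, -⟩ := hD.exists_k hlam
  have hy₀ := hk3 y₀ (mem_univ _)
  -- small structures containing the first points of a sequence
  have hsm : ∀ p : ℕ → X, p 0 ≠ p 1 → (∀ j, I (p j) y₀) → ∀ m ≤ 2 * n + 2,
      ∃ (P : Finset X) (Q : Finset Y), Op I P Q ∧ pre p m ⊆ P ∧ p 0 ∈ P ∧ p 1 ∈ P ∧
        ∀ y ∈ Q, sz I P y ≤ K := by
    intro p h01 hp m hm
    obtain ⟨S, hS, hc⟩ := cover hD hlam p h01 hp n
    obtain ⟨P, Q, hPQ, hSP, hPK⟩ := H (insert (p 0) (insert (p 1) S)) (by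
      calc 2 = ({p 0, p 1} : Finset X).card := (Finset.card_pair h01).symm
        _ ≤ _ := Finset.card_le_card (by
          intro x hx
          simp only [mem_insert, mem_singleton, mem_filter] at hx ⊢
          rcases hx with rfl | rfl
          · exact ⟨Or.inl rfl, hp 0⟩
          · exact ⟨Or.inr (Or.inl rfl), hp 1⟩)) ((Finset.card_insert_le _ _).trans (by
            have := Finset.card_insert_le (p 1) S
            omega))
    have h0 : p 0 ∈ P := hSP (by simp)
    have h1 : p 1 ∈ P := hSP (by simp)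
    refine ⟨P, Q, hPQ, ?_, h0, h1, hPK⟩
    rw [pre_subset_iff]
    intro i hi
    exact hc P Q hPQ h0 h1 (fun x hx => hSP (by simp [hx])) i (by omega)
  -- the greedy choice
  have hgr : ∀ m, 2 ≤ m → m ≤ 2 * n + 2 → ∃ p : ℕ → X, (∀ j, I (p j) y₀) ∧ p 0 ≠ p 1 ∧
      ∀ j, 2 ≤ j → j < m → p j ∉ clP I (pre p j) := by
    intro m hm
    induction m, hm using Nat.le_induction with
    | base =>
      intro _
      have h1 : 1 < (univ.filter fun x => I x y₀).card := by
        unfold sz at hy₀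
        omega
      obtain ⟨a, ha, b, hb, hab⟩ := Finset.one_lt_card.1 h1
      rw [mem_filter] at ha hb
      refine ⟨fun j => if j = 0 then a else b, fun j => ?_, by simpa using hab, fun j _ _ => by
        omega⟩
      by_cases hj : j = 0
      · simpa [hj] using ha.2
      · simpa [hj] using hb.2
    | succ m hm2 ih =>
      intro hmn
      obtain ⟨p, hp, h01, hpm⟩ := ih (by omega)
      obtain ⟨P, Q, hPQ, hpre, h0, h1, hPK⟩ := hsm p h01 hp m (by omega)
      have hy₀Q : y₀ ∈ Q := hPQ.pts _ h0 _ h1 h01 y₀ (hp 0) (hp 1)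
      obtain ⟨c, hc, hcP⟩ : ∃ c, I c y₀ ∧ c ∉ P := by
        by_contra hcon2
        push Not at hcon2
        have h2 : (univ.filter fun x => I x y₀) ⊆ P.filter fun x => I x y₀ := by
          intro x hx
          rw [mem_filter] at hx ⊢
          exact ⟨hcon2 x hx.2, hx.2⟩
        have h3 := Finset.card_le_card h2
        have h4 := hPK y₀ hy₀Q
        unfold sz at h4 hcon
        omega
      have hpre_eq : ∀ j ≤ m, pre (Function.update p m c) j = pre p j := by
        intro j hj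
        unfold pre
        refine Finset.image_congr fun i hi => ?_
        have : i < j := by simpa using hi
        exact Function.update_of_ne (by omega) _ _
      refine ⟨Function.update p m c, fun j => ?_, ?_, fun j hj1 hj2 => ?_⟩
      · rcases eq_or_ne j m with rfl | hj
        · rw [Function.update_self]
          exact hc
        · rw [Function.update_of_ne hj]
          exact hp j
      · rw [Function.update_of_ne (by omega), Function.update_of_ne (by omega)]
        exact h01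
      · rw [hpre_eq j (by omega)]
        rcases eq_or_ne j m with rfl | hj
        · rw [Function.update_self]
          exact fun h => hcP (clP_subset hPQ hpre h)
        · rw [Function.update_of_ne hj]
          exact hpm j hj1 (by omega)
  obtain ⟨p, hp, h01, hpm⟩ := hgr (2 * n + 2) (by omega) le_rfl
  obtain ⟨P, Q, hPQ, hpre, h0, h1, hPK⟩ := hsm p h01 hp (2 * n + 2) le_rfl
  obtain ⟨k', hk', hk'2⟩ := chain hD hlam h01 (2 * n + 2) hpm (2 * n) le_rfl
  have hy₀Q : y₀ ∈ Q := hPQ.pts _ h0 _ h1 h01 y₀ (hp 0) (hp 1)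
  have hy₀c : y₀ ∈ clQ I (pre p (2 * n + 2)) := by
    rw [mem_clQ]
    intro P' Q' h hS
    rw [pre_subset_iff] at hS
    exact h.pts _ (hS 0 (by omega)) _ (hS 1 (by omega)) h01 y₀ (hp 0) (hp 1)
  have e1 := hk'2 y₀ hy₀c
  have e2 := hPK y₀ hy₀Q
  have e3 : sz I (clP I (pre p (2 * n + 2))) y₀ ≤ sz I P y₀ :=
    Finset.card_le_card (Finset.filter_subset_filter _ (clP_subset hPQ hpre))
  omega

/-- **Few generators.** -/
theorem gen (hD : Cl I lam univ univ) (hlam : 2 ≤ lam) (n : ℕ)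
    (hk : ∃ y : Y, sz I univ y < kap lam (2 * n + 1)) :
    ∃ S : Finset X, S.card ≤ n + 2 ∧ ∀ (P : Finset X) (Q : Finset Y), Op I P Q → S ⊆ P →
      P = univ := by
  obtain ⟨y₀, hy₀⟩ := hk
  obtain ⟨k, hk1, -, hk3, -, -⟩ := hD.exists_k hlam
  rw [hk3 y₀ (mem_univ _)] at hy₀
  by_contra hcon
  push Not at hcon
  have key : ∀ S : Finset X, 2 ≤ (S.filter fun x => I x y₀).card → S.card ≤ n + 2 →
      ∃ (P : Finset X) (Q : Finset Y),
      Op I P Q ∧ S ⊆ P ∧ ∀ y ∈ Q, sz I P y ≤ min (k - 1) (kap lam (2 * n) - 1) := by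
    intro S hS2' hS
    have hS2 : 2 ≤ S.card := hS2'.trans (Finset.card_filter_le _ _)
    obtain ⟨P, Q, hPQ, hSP, hne⟩ := hcon S hS
    refine ⟨P, Q, hPQ, hSP, ?_⟩
    have c := hPQ.cl hD (hS2.trans (Finset.card_le_card hSP))
    obtain ⟨k₀, h1, -, h3, -, -⟩ := c.exists_k hlam
    have hlt : P ⊂ univ := Finset.ssubset_univ_iff.2 hne
    have h4 := growth hlam hD c hlt (Finset.subset_univ _) hk3 h3
    intro y hy
    rw [h3 y hy]
    have h5 : k₀ < kap lam (2 * n) := by
      by_contra h6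
      push Not at h6
      have := kap_mono_step h6
      omega
    have h6 : k₀ < k := by
      obtain ⟨m, rfl⟩ : ∃ m, k₀ = m + 1 := ⟨k₀ - 1, by omega⟩
      simp only [Nat.add_sub_cancel] at h4
      have : m ≤ m ^ 2 := Nat.le_self_pow (by norm_num) m
      omega
    rw [le_min_iff]
    omega
  have hpos : 0 < kap lam (2 * n) := by
    have := le_kap lam (2 * n)
    omega
  have h := small hD hlam n _ (by
    refine lt_of_le_of_lt (min_le_right _ _) ?_
    omega) y₀ key
  rw [hk3 y₀ (mem_univ _)] at h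
  have := min_le_left (k - 1) (kap lam (2 * n) - 1)
  omega

end Pool.Agent.T2H18.GS
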